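import Mathlib

/-!
# Ball, Gau: the standard Gaussian law of `(ℝ × ℝ)^m`

Rotation invariance and the formula of Cameron and Martin for translations.
-/

set_option autoImplicit false

open Set Filter Topology MeasureTheory ProbabilityTheory
open scoped ENNReal

namespace Pool.Agent.Lib.MP_95e7ec_an.Ball

/-- the rotation of the plane by the angle `a` -/
noncomputable def rp (a : ℝ) (z : ℝ × ℝ) : ℝ × ℝ :=
  (Real.cos a * z.1 - Real.sin a * z.2, Real.sin a * z.1 + Real.cos a * z.2)

/-- the standard Gaussian law of the plane -/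
noncomputable def g2 : Measure (ℝ × ℝ) := (gaussianReal 0 1).prod (gaussianReal 0 1)

instance : IsProbabilityMeasure g2 := by
  unfold g2
  infer_instance

/-- its density -/
noncomputable def phi (z : ℝ × ℝ) : ℝ≥0∞ :=
  ENNReal.ofReal ((Real.sqrt (2 * Real.pi))⁻¹ * (Real.sqrt (2 * Real.pi))⁻¹ *
    Real.exp (-(z.1 ^ 2 + z.2 ^ 2) / 2))

theorem measurable_phi : Measurable phi := by
  unfold phi
  fun_prop

theorem g2_eq : g2 = (volume : Measure (ℝ × ℝ)).withDensity phi := by
  unfold g2
  rw [gaussianReal_of_var_ne_zero 0 one_ne_zero, Measure.volume_eq_prod,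
    prod_withDensity (measurable_gaussianPDF 0 1) (measurable_gaussianPDF 0 1)]
  congr 1
  funext z
  unfold phi gaussianPDF gaussianPDFReal
  rw [← ENNReal.ofReal_mul (by positivity)]
  congr 1
  simp only [NNReal.coe_one, mul_one, sub_zero]
  rw [show -(z.1 ^ 2 + z.2 ^ 2) / 2 = -z.1 ^ 2 / 2 + -z.2 ^ 2 / 2 by ring, Real.exp_add]
  ring

/-- the rotation of the plane, as a linear map -/
private noncomputable def bL (a : ℝ) : (ℝ × ℝ) →ₗ[ℝ] (ℝ × ℝ) :=
  Matrix.toLin (Module.Basis.finTwoProd ℝ) (Module.Basis.finTwoProd ℝ)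
    !![Real.cos a, -Real.sin a; Real.sin a, Real.cos a]

private theorem bL_eq (a : ℝ) : (bL a : ℝ × ℝ → ℝ × ℝ) = rp a := by
  funext z
  rw [bL, Matrix.toLin_finTwoProd_apply]
  unfold rp
  refine Prod.ext ?_ ?_
  · simp only; ring
  · simp only

private theorem bL_det (a : ℝ) : LinearMap.det (bL a) = 1 := by
  rw [bL, LinearMap.det_toLin, Matrix.det_fin_two_of]
  nlinarith [Real.sin_sq_add_cos_sq a]

theorem measurable_rp (a : ℝ) : Measurable (rp a) := by
  unfold rp
  fun_prop

theorem rp_vol (a : ℝ) : MeasurePreserving (rp a) (volume : Measure (ℝ × ℝ)) volume := by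
  refine ⟨measurable_rp a, ?_⟩
  have h := Measure.map_linearMap_addHaar_eq_smul_addHaar (volume : Measure (ℝ × ℝ))
    (f := bL a) (by rw [bL_det]; norm_num)
  rw [bL_eq] at h
  rw [h, bL_det]
  simp

theorem phi_rp (a : ℝ) (z : ℝ × ℝ) : phi (rp a z) = phi z := by
  unfold phi rp
  congr 4
  have := Real.sin_sq_add_cos_sq a
  simp only
  have e : (Real.cos a * z.1 - Real.sin a * z.2) ^ 2 +
      (Real.sin a * z.1 + Real.cos a * z.2) ^ 2 =
      (Real.sin a ^ 2 + Real.cos a ^ 2) * (z.1 ^ 2 + z.2 ^ 2) := by ring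
  rw [e, this, one_mul]

theorem g2_rot (a : ℝ) : MeasurePreserving (rp a) g2 g2 := by
  refine ⟨measurable_rp a, ?_⟩
  refine Measure.ext fun s hs => ?_
  rw [Measure.map_apply (measurable_rp a) hs, g2_eq,
    withDensity_apply _ (measurable_rp a hs), withDensity_apply _ hs]
  rw [← lintegral_indicator (measurable_rp a hs), ← lintegral_indicator hs]
  rw [← (rp_vol a).lintegral_comp (measurable_phi.indicator hs)]
  refine lintegral_congr fun z => ?_
  by_cases hz : rp a z ∈ s
  · rw [Set.indicator_of_mem (by exact hz), Set.indicator_of_mem hz, phi_rp]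
  · rw [Set.indicator_of_notMem (by exact hz), Set.indicator_of_notMem hz]

/-- the density of the translated law -/
noncomputable def cmd (b z : ℝ × ℝ) : ℝ≥0∞ :=
  ENNReal.ofReal (Real.exp (b.1 * z.1 + b.2 * z.2 - (b.1 ^ 2 + b.2 ^ 2) / 2))

theorem measurable_cmd (b : ℝ × ℝ) : Measurable (cmd b) := by
  unfold cmd
  fun_prop

theorem g2_cm (b : ℝ × ℝ) : g2.map (fun z => b + z) = g2.withDensity (cmd b) := by
  have hm : Measurable fun z : ℝ × ℝ => b + z := measurable_const_add b
  rw [g2_eq, ← withDensity_mul _ measurable_phi (measurable_cmd b)]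
  refine Measure.ext fun s hs => ?_
  rw [Measure.map_apply hm hs, withDensity_apply _ (hm hs), withDensity_apply _ hs,
    ← lintegral_indicator (hm hs), ← lintegral_indicator hs,
    ← lintegral_add_left_eq_self (s.indicator (phi * cmd b)) b]
  refine lintegral_congr fun z => ?_
  have hz : (b + z ∈ s) ↔ z ∈ (fun z : ℝ × ℝ => b + z) ⁻¹' s := Iff.rfl
  by_cases h : b + z ∈ s
  · rw [Set.indicator_of_mem (hz.1 h), Set.indicator_of_mem h, Pi.mul_apply]
    unfold phi cmd
    rw [← ENNReal.ofReal_mul (by positivity)]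
    congr 1
    rw [mul_assoc ((Real.sqrt (2 * Real.pi))⁻¹ * (Real.sqrt (2 * Real.pi))⁻¹)
      (Real.exp (-((b + z).1 ^ 2 + (b + z).2 ^ 2) / 2)), ← Real.exp_add]
    congr 2
    simp only [Prod.fst_add, Prod.snd_add]
    ring
  · rw [Set.indicator_of_notMem (fun h' => h (hz.2 h')), Set.indicator_of_notMem h]

/-- densities of product measures -/
theorem pi_wd {m : ℕ} (μ : Measure (ℝ × ℝ)) [IsProbabilityMeasure μ]
    (f : Fin m → ℝ × ℝ → ℝ≥0∞) (hf : ∀ p, Measurable (f p))
    (hs : ∀ p, SigmaFinite (μ.withDensity (f p))) :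
    Measure.pi (fun p => μ.withDensity (f p)) =
      (Measure.pi fun _ : Fin m => μ).withDensity (fun g => ∏ p, f p (g p)) := by
  refine Measure.pi_eq fun s hsm => ?_
  have hms : MeasurableSet (Set.univ.pi s) := MeasurableSet.univ_pi hsm
  rw [withDensity_apply _ hms, ← lintegral_indicator hms]
  have h1 : ∀ g : Fin m → ℝ × ℝ, (Set.univ.pi s).indicator (fun g => ∏ p, f p (g p)) g =
      ∏ p, (s p).indicator (f p) (g p) := by
    intro g
    by_cases hg : g ∈ Set.univ.pi s
    · rw [Set.indicator_of_mem hg]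
      refine Finset.prod_congr rfl fun p _ => ?_
      rw [Set.indicator_of_mem (hg p (Set.mem_univ p))]
    · rw [Set.indicator_of_notMem hg]
      have : ∃ p, g p ∉ s p := by
        by_contra hc
        push Not at hc
        exact hg fun p _ => hc p
      obtain ⟨p, hp⟩ := this
      exact (Finset.prod_eq_zero (Finset.mem_univ p) (Set.indicator_of_notMem hp _)).symm
  simp only [h1]
  have hind : iIndepFun (fun (p : Fin m) (g : Fin m → ℝ × ℝ) => (s p).indicator (f p) (g p))
      (Measure.pi fun _ : Fin m => μ) :=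
    iIndepFun_pi (X := fun p => (s p).indicator (f p))
      fun p => ((hf p).indicator (hsm p)).aemeasurable
  rw [lintegral_prod_eq_prod_lintegral_of_indepFun Finset.univ _ hind
    fun p => ((hf p).indicator (hsm p)).comp (measurable_pi_apply p)]
  refine Finset.prod_congr rfl fun p _ => ?_
  rw [withDensity_apply _ (hsm p), ← lintegral_indicator (hsm p)]
  exact (measurePreserving_eval (fun _ : Fin m => μ) p).lintegral_comp
    ((hf p).indicator (hsm p))

/-- the standard Gaussian law of `(ℝ × ℝ)^m` -/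
noncomputable def gm (m : ℕ) : Measure (Fin m → ℝ × ℝ) := Measure.pi fun _ => g2

instance (m : ℕ) : IsProbabilityMeasure (gm m) := by
  unfold gm
  infer_instance

/-- the simultaneous rotation -/
noncomputable def rot {m : ℕ} (a : ℝ) (g : Fin m → ℝ × ℝ) : Fin m → ℝ × ℝ := fun p => rp a (g p)

theorem gm_rot {m : ℕ} (a : ℝ) : MeasurePreserving (rot a) (gm m) (gm m) :=
  measurePreserving_pi (fun _ : Fin m => g2) (fun _ : Fin m => g2) (fun _ => g2_rot a)

/-- the real part of the Hermitian product -/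
def re {m : ℕ} (b g : Fin m → ℝ × ℝ) : ℝ := ∑ p, ((b p).1 * (g p).1 + (b p).2 * (g p).2)

/-- the imaginary part of the Hermitian product -/
def im {m : ℕ} (b g : Fin m → ℝ × ℝ) : ℝ := ∑ p, ((b p).1 * (g p).2 - (b p).2 * (g p).1)

/-- the square of the Euclidean norm -/
def sq {m : ℕ} (b : Fin m → ℝ × ℝ) : ℝ := ∑ p, ((b p).1 ^ 2 + (b p).2 ^ 2)

theorem sq_nonneg' {m : ℕ} (b : Fin m → ℝ × ℝ) : 0 ≤ sq b :=
  Finset.sum_nonneg fun p _ => by positivity

/-- **Cameron and Martin.** -/
theorem cm {m : ℕ} (b : Fin m → ℝ × ℝ) {G : (Fin m → ℝ × ℝ) → ℝ≥0∞} (hG : Measurable G) :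
    ∫⁻ g, G (b + g) ∂gm m =
      ∫⁻ g, ENNReal.ofReal (Real.exp (re b g - sq b / 2)) * G g ∂gm m := by
  have h1 : (gm m).map (fun g => b + g) =
      (gm m).withDensity (fun g => ∏ p, cmd (b p) (g p)) := by
    have hs : ∀ p, SigmaFinite (g2.withDensity (cmd (b p))) := by
      intro p
      rw [← g2_cm]
      have : IsProbabilityMeasure (g2.map fun z => b p + z) :=
        Measure.isProbabilityMeasure_map (measurable_const_add (b p)).aemeasurable
      infer_instance
    rw [gm, ← pi_wd g2 (fun p => cmd (b p)) (fun p => measurable_cmd (b p)) hs]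
    have h2 : ∀ p, IsProbabilityMeasure (g2.map fun z => b p + z) := fun p =>
      Measure.isProbabilityMeasure_map (measurable_const_add (b p)).aemeasurable
    have h3 : (fun p => g2.withDensity (cmd (b p))) = fun p => g2.map (fun z => b p + z) := by
      funext p
      rw [g2_cm]
    rw [h3]
    have h4 := Measure.pi_map_pi (μ := fun _ : Fin m => g2)
      (f := fun (p : Fin m) (z : ℝ × ℝ) => b p + z)
      (fun p => (measurable_const_add (b p)).aemeasurable)
    rw [← h4]
    rfl
  have h5 : Measurable fun g : Fin m → ℝ × ℝ => ∏ p, cmd (b p) (g p) :=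
    Finset.measurable_fun_prod _ fun p _ => (measurable_cmd (b p)).comp (measurable_pi_apply p)
  rw [← lintegral_map hG (measurable_const_add b), h1,
    lintegral_withDensity_eq_lintegral_mul _ h5 hG]
  refine lintegral_congr fun g => ?_
  rw [Pi.mul_apply]
  congr 1
  unfold cmd
  rw [← ENNReal.ofReal_prod_of_nonneg fun p _ => (Real.exp_pos _).le, ← Real.exp_sum]
  congr 2
  unfold re sq
  rw [Finset.sum_sub_distrib, Finset.sum_div]

/-- the exponential moments -/
theorem mgf_gm {m : ℕ} (b : Fin m → ℝ × ℝ) :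
    ∫⁻ g, ENNReal.ofReal (Real.exp (re b g)) ∂gm m = ENNReal.ofReal (Real.exp (sq b / 2)) := by
  have h := cm b (G := fun _ => 1) measurable_const
  simp only [lintegral_const, measure_univ, mul_one] at h
  have h1 : ∀ g : Fin m → ℝ × ℝ, ENNReal.ofReal (Real.exp (re b g)) =
      ENNReal.ofReal (Real.exp (sq b / 2)) *
        ENNReal.ofReal (Real.exp (re b g - sq b / 2)) := by
    intro g
    rw [← ENNReal.ofReal_mul (Real.exp_pos _).le, ← Real.exp_add]
    congr 2
    ring
  simp only [h1]
  rw [lintegral_const_mul' _ _ ENNReal.ofReal_ne_top, ← h, mul_one]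

end Pool.Agent.Lib.MP_95e7ec_an.Ball
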