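import Mathlib
import Pool.Agent.Lib.MP_95e7ec_an.Ball.Gau

/-!
# Ball, Smooth: from the mean over the rotations to the Gaussian mean round every centre

Let `N ≥ 0` be measurable on `(ℝ × ℝ)^m` with `∫ N (e^{ia} g) da ≤ M` over `[0, 2π]` for every `g`.
Then `E N (b + g) ≤ 3 M (1 + |b|)` for the standard Gaussian `g` and every `b`.

Proof. By Cameron and Martin `E N (b + g) = E [N e^{Re <b, g> - |b|^2 / 2}]
≤ E [N e^{|<b, g>| - |b|^2 / 2}]`. The last weight is invariant under the rotations, so this is at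
most `M / (2π) E e^{|<b, g>| - |b|^2 / 2}`. For `d = 1 / (2 (1 + |b|))`, `κ = 1 / (1 - d^2 / 2)` and
`J ≥ 4 (1 + |b|)` one has `e^{|z|} ≤ ∑_{|j| ≤ J} e^{κ Re (e^{2ijd} z)}`, and
`E e^{κ Re <b, g>} = e^{κ^2 |b|^2 / 2}`, `κ^2 |b|^2 ≤ |b|^2 + 3 / 8`.
-/

set_option autoImplicit false

open Set Filter Topology MeasureTheory ProbabilityTheory
open scoped ENNReal

namespace Pool.Agent.Lib.MP_95e7ec_an.Ball

theorem measurable_re {m : ℕ} (b : Fin m → ℝ × ℝ) : Measurable (re b) := by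
  have : Continuous (re b) := by
    unfold re
    fun_prop
  exact this.measurable

theorem measurable_im {m : ℕ} (b : Fin m → ℝ × ℝ) : Measurable (im b) := by
  have : Continuous (im b) := by
    unfold im
    fun_prop
  exact this.measurable

theorem measurable_rot2 {m : ℕ} :
    Measurable fun q : ℝ × (Fin m → ℝ × ℝ) => rot q.1 q.2 := by
  have : Continuous fun q : ℝ × (Fin m → ℝ × ℝ) => rot q.1 q.2 := by
    unfold rot rp
    fun_prop
  exact this.measurable

theorem re_rot {m : ℕ} (b g : Fin m → ℝ × ℝ) (a : ℝ) :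
    re b (rot a g) = Real.cos a * re b g - Real.sin a * im b g := by
  unfold re im rot rp
  rw [Finset.mul_sum, Finset.mul_sum, ← Finset.sum_sub_distrib]
  exact Finset.sum_congr rfl fun p _ => by ring

theorem im_rot {m : ℕ} (b g : Fin m → ℝ × ℝ) (a : ℝ) :
    im b (rot a g) = Real.sin a * re b g + Real.cos a * im b g := by
  unfold re im rot rp
  rw [Finset.mul_sum, Finset.mul_sum, ← Finset.sum_add_distrib]
  exact Finset.sum_congr rfl fun p _ => by ring

theorem re_smul {m : ℕ} (b g : Fin m → ℝ × ℝ) (κ : ℝ) : re (κ • b) g = κ * re b g := by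
  unfold re
  rw [Finset.mul_sum]
  refine Finset.sum_congr rfl fun p _ => ?_
  simp only [Pi.smul_apply, Prod.smul_fst, Prod.smul_snd, smul_eq_mul]
  ring

theorem sq_smul {m : ℕ} (b : Fin m → ℝ × ℝ) (κ : ℝ) : sq (κ • b) = κ ^ 2 * sq b := by
  unfold sq
  rw [Finset.mul_sum]
  refine Finset.sum_congr rfl fun p _ => ?_
  simp only [Pi.smul_apply, Prod.smul_fst, Prod.smul_snd, smul_eq_mul]
  ring

/-- the average with a rotation invariant weight -/
theorem weight_avg {m : ℕ} {N W : (Fin m → ℝ × ℝ) → ℝ≥0∞} (hN : Measurable N)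
    (hW : Measurable W) (hWr : ∀ a g, W (rot a g) = W g) {M : ℝ≥0∞}
    (hM : ∀ g, ∫⁻ a in Set.Icc 0 (2 * Real.pi), N (rot a g) ≤ M) :
    ENNReal.ofReal (2 * Real.pi) * ∫⁻ g, W g * N g ∂gm m ≤ M * ∫⁻ g, W g ∂gm m := by
  have h1 : ∀ a : ℝ, ∫⁻ g, W g * N (rot a g) ∂gm m = ∫⁻ g, W g * N g ∂gm m := by
    intro a
    have h0 := (gm_rot a).lintegral_comp (hW.mul hN)
    simp only [Pi.mul_apply, hWr] at h0
    exact h0
  have h2 : ∫⁻ _a : ℝ in Set.Icc 0 (2 * Real.pi), ∫⁻ g, W g * N g ∂gm m ≤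
      M * ∫⁻ g, W g ∂gm m := by
    calc ∫⁻ _a : ℝ in Set.Icc 0 (2 * Real.pi), ∫⁻ g, W g * N g ∂gm m
        = ∫⁻ a in Set.Icc 0 (2 * Real.pi), ∫⁻ g, W g * N (rot a g) ∂gm m := by
          refine lintegral_congr fun a => (h1 a).symm
      _ = ∫⁻ g, (∫⁻ a in Set.Icc 0 (2 * Real.pi), W g * N (rot a g)) ∂gm m := by
          refine lintegral_lintegral_swap ?_
          exact ((hW.comp measurable_snd).mul (hN.comp measurable_rot2)).aemeasurable
      _ = ∫⁻ g, W g * (∫⁻ a in Set.Icc 0 (2 * Real.pi), N (rot a g)) ∂gm m := by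
          refine lintegral_congr fun g => ?_
          have hg : Measurable fun a : ℝ => N (rot a g) :=
            hN.comp (measurable_rot2.comp measurable_prodMk_right)
          rw [lintegral_const_mul _ hg]
      _ ≤ ∫⁻ g, W g * M ∂gm m := lintegral_mono fun g => by gcongr; exact hM g
      _ = M * ∫⁻ g, W g ∂gm m := by
          rw [lintegral_mul_const _ hW, mul_comm]
  rwa [lintegral_const, Measure.restrict_apply_univ, Real.volume_Icc, sub_zero, mul_comm] at h2

/-- finitely many directions suffice -/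
theorem exp_norm_le (x y : ℝ) {d : ℝ} (hd : 0 < d) (hd1 : d ≤ 1) (J : ℕ)
    (hJ : Real.pi / (2 * d) + 1 / 2 ≤ J) :
    Real.exp (Real.sqrt (x ^ 2 + y ^ 2)) ≤
      ∑ j ∈ Finset.Icc (-(J : ℤ)) J,
        Real.exp ((1 - d ^ 2 / 2)⁻¹ *
          (Real.cos (2 * j * d) * x - Real.sin (2 * j * d) * y)) := by
  set z : ℂ := ⟨x, y⟩ with hz
  set ρ : ℝ := ‖z‖ with hρ
  set θ : ℝ := z.arg with hθ
  have hρ0 : 0 ≤ ρ := norm_nonneg z
  have hρ1 : Real.sqrt (x ^ 2 + y ^ 2) = ρ := by
    rw [hρ, Complex.norm_eq_sqrt_sq_add_sq]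
  have hx : x = ρ * Real.cos θ := by
    have := Complex.norm_mul_cos_arg z
    rw [← hρ, ← hθ] at this
    rw [this]
  have hy : y = ρ * Real.sin θ := by
    have := Complex.norm_mul_sin_arg z
    rw [← hρ, ← hθ] at this
    rw [this]
  have hθ1 : |θ| ≤ Real.pi := Complex.abs_arg_le_pi z
  set j : ℤ := round (-θ / (2 * d)) with hj
  have hj1 : |(-θ / (2 * d)) - j| ≤ 1 / 2 := abs_sub_round _
  have h2d : (0 : ℝ) < 2 * d := by positivity
  have hj2 : |2 * j * d + θ| ≤ d := by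
    have e : 2 * (j : ℝ) * d + θ = -((2 * d) * ((-θ / (2 * d)) - j)) := by
      field_simp
      ring
    rw [e, abs_neg, abs_mul, abs_of_pos h2d]
    nlinarith
  have hj3 : |(j : ℝ)| ≤ J := by
    have h1 : |-θ / (2 * d)| ≤ Real.pi / (2 * d) := by
      rw [abs_div, abs_neg, abs_of_pos h2d]
      gcongr
    have h2 : |(j : ℝ)| ≤ |-θ / (2 * d)| + 1 / 2 := by
      have e : (j : ℝ) = -θ / (2 * d) - ((-θ / (2 * d)) - j) := by ring
      calc |(j : ℝ)| = |-θ / (2 * d) - ((-θ / (2 * d)) - j)| := by rw [← e]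
        _ ≤ |-θ / (2 * d)| + |(-θ / (2 * d)) - j| := abs_sub _ _
        _ ≤ _ := by linarith
    linarith
  have hj4 : j ∈ Finset.Icc (-(J : ℤ)) J := by
    rw [Finset.mem_Icc]
    have := abs_le.1 hj3
    constructor
    · have h := this.1
      exact_mod_cast h
    · have h := this.2
      exact_mod_cast h
  have hκ : 0 < 1 - d ^ 2 / 2 := by nlinarith
  have hcos : 1 - d ^ 2 / 2 ≤ Real.cos (2 * j * d + θ) := by
    have h1 := Real.one_sub_sq_div_two_le_cos (x := 2 * j * d + θ)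
    have h2 : (2 * j * d + θ) ^ 2 ≤ d ^ 2 := by
      rw [← sq_abs (2 * (j : ℝ) * d + θ)]
      exact pow_le_pow_left₀ (abs_nonneg _) hj2 2
    linarith
  have hmain : ρ ≤ (1 - d ^ 2 / 2)⁻¹ *
      (Real.cos (2 * j * d) * x - Real.sin (2 * j * d) * y) := by
    have e : Real.cos (2 * j * d) * x - Real.sin (2 * j * d) * y =
        ρ * Real.cos (2 * j * d + θ) := by
      rw [Real.cos_add]
      nth_rewrite 1 [hx]
      nth_rewrite 1 [hy]
      ring
    rw [e, ← div_eq_inv_mul, le_div_iff₀ hκ]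
    exact mul_le_mul_of_nonneg_left hcos hρ0
  rw [hρ1]
  refine (Real.exp_le_exp.2 hmain).trans ?_
  exact Finset.single_le_sum (f := fun j : ℤ => Real.exp ((1 - d ^ 2 / 2)⁻¹ *
    (Real.cos (2 * j * d) * x - Real.sin (2 * j * d) * y)))
    (fun j _ => (Real.exp_pos _).le) hj4

/-- the total mass of the rotation invariant weight -/
theorem weight_mass {m : ℕ} (b : Fin m → ℝ × ℝ) :
    ∫⁻ g, ENNReal.ofReal (Real.exp (Real.sqrt (re b g ^ 2 + im b g ^ 2) - sq b / 2)) ∂gm m ≤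
      ENNReal.ofReal (14 * (1 + Real.sqrt (sq b))) := by
  set β : ℝ := Real.sqrt (sq b) with hβ
  have hβ0 : 0 ≤ β := Real.sqrt_nonneg _
  have hβ2 : β ^ 2 = sq b := Real.sq_sqrt (sq_nonneg' b)
  set d : ℝ := 1 / (2 * (1 + β)) with hd
  have hd0 : 0 < d := by positivity
  have hd1 : d ≤ 1 := by
    rw [hd, div_le_one (by positivity)]
    linarith
  have hdβ : d * (1 + β) = 1 / 2 := by
    rw [hd]
    field_simp
  set J : ℕ := ⌈4 * (1 + β)⌉₊ with hJ
  have hJ1 : 4 * (1 + β) ≤ J := Nat.le_ceil _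
  have hJ2 : (J : ℝ) < 4 * (1 + β) + 1 := Nat.ceil_lt_add_one (by positivity)
  have hpi : Real.pi < 3.15 := Real.pi_lt_d2
  have hJ3 : Real.pi / (2 * d) + 1 / 2 ≤ J := by
    have e : Real.pi / (2 * d) = Real.pi * (1 + β) := by
      rw [hd]
      field_simp
    rw [e]
    nlinarith
  set κ : ℝ := (1 - d ^ 2 / 2)⁻¹ with hκ
  have hd2 : d ^ 2 / 2 ≤ 1 / 8 := by
    have : d ≤ 1 / 2 := by nlinarith
    nlinarith
  have hκ0 : 0 < 1 - d ^ 2 / 2 := by linarith
  have hκ1 : κ ^ 2 ≤ 1 + 3 * (d ^ 2 / 2) := by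
    set t := d ^ 2 / 2 with ht
    have ht0 : 0 ≤ t := by positivity
    rw [hκ, inv_pow, inv_le_iff_one_le_mul₀ (by positivity)]
    nlinarith [mul_nonneg ht0 ht0, mul_nonneg (mul_nonneg ht0 ht0) ht0,
      mul_nonneg ht0 (show (0 : ℝ) ≤ 1 / 8 - t by linarith)]
  have hκ2 : κ ^ 2 * sq b / 2 - sq b / 2 ≤ 3 / 16 := by
    rw [← hβ2]
    have h1 : d * β ≤ 1 / 2 := by nlinarith
    have h2 : (d * β) ^ 2 ≤ 1 / 4 := by
      have : 0 ≤ d * β := by positivity
      nlinarith
    nlinarith [mul_le_mul_of_nonneg_right hκ1 (by positivity : (0 : ℝ) ≤ β ^ 2)]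
  have hterm : ∀ a : ℝ, ∫⁻ g, ENNReal.ofReal (Real.exp (κ *
      (Real.cos a * re b g - Real.sin a * im b g) - sq b / 2)) ∂gm m ≤
      ENNReal.ofReal (5 / 4) := by
    intro a
    have h1 : ∫⁻ g, ENNReal.ofReal (Real.exp (κ *
        (Real.cos a * re b g - Real.sin a * im b g) - sq b / 2)) ∂gm m =
        ∫⁻ g, ENNReal.ofReal (Real.exp (κ * re b g - sq b / 2)) ∂gm m := by
      have hmeas : Measurable fun g : Fin m → ℝ × ℝ =>
          ENNReal.ofReal (Real.exp (κ * re b g - sq b / 2)) := by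
        have := measurable_re b
        fun_prop
      rw [← (gm_rot a).lintegral_comp hmeas]
      refine lintegral_congr fun g => ?_
      rw [re_rot]
    rw [h1]
    have h2 : ∀ g : Fin m → ℝ × ℝ, ENNReal.ofReal (Real.exp (κ * re b g - sq b / 2)) =
        ENNReal.ofReal (Real.exp (-(sq b / 2))) *
          ENNReal.ofReal (Real.exp (re (κ • b) g)) := by
      intro g
      rw [← ENNReal.ofReal_mul (Real.exp_pos _).le, ← Real.exp_add, re_smul]
      congr 2
      ring
    simp only [h2]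
    rw [lintegral_const_mul' _ _ ENNReal.ofReal_ne_top, mgf_gm,
      ← ENNReal.ofReal_mul (Real.exp_pos _).le, ← Real.exp_add, sq_smul]
    refine ENNReal.ofReal_le_ofReal ?_
    have h3 : -(sq b / 2) + κ ^ 2 * sq b / 2 ≤ 3 / 16 := by linarith
    refine (Real.exp_le_exp.2 h3).trans ?_
    have h4 := Real.exp_bound_div_one_sub_of_interval' (x := 3 / 16) (by norm_num) (by norm_num)
    refine h4.le.trans ?_
    norm_num
  calc ∫⁻ g, ENNReal.ofReal (Real.exp (Real.sqrt (re b g ^ 2 + im b g ^ 2) - sq b / 2)) ∂gm m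
      ≤ ∫⁻ g, ∑ j ∈ Finset.Icc (-(J : ℤ)) J, ENNReal.ofReal (Real.exp (κ *
          (Real.cos (2 * j * d) * re b g - Real.sin (2 * j * d) * im b g) - sq b / 2))
          ∂gm m := by
        refine lintegral_mono fun g => ?_
        rw [← ENNReal.ofReal_sum_of_nonneg fun j _ => (Real.exp_pos _).le]
        refine ENNReal.ofReal_le_ofReal ?_
        have h := exp_norm_le (re b g) (im b g) hd0 hd1 J hJ3
        have e1 : Real.exp (Real.sqrt (re b g ^ 2 + im b g ^ 2) - sq b / 2) =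
            Real.exp (Real.sqrt (re b g ^ 2 + im b g ^ 2)) * Real.exp (-(sq b / 2)) := by
          rw [← Real.exp_add]
          congr 1
        have e2 : ∑ j ∈ Finset.Icc (-(J : ℤ)) J, Real.exp (κ *
            (Real.cos (2 * j * d) * re b g - Real.sin (2 * j * d) * im b g) - sq b / 2) =
            (∑ j ∈ Finset.Icc (-(J : ℤ)) J, Real.exp (κ *
            (Real.cos (2 * j * d) * re b g - Real.sin (2 * j * d) * im b g))) *
              Real.exp (-(sq b / 2)) := by
          rw [Finset.sum_mul]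
          refine Finset.sum_congr rfl fun j _ => ?_
          rw [← Real.exp_add]
          congr 1
        rw [e1, e2]
        exact mul_le_mul_of_nonneg_right h (Real.exp_pos _).le
    _ = ∑ j ∈ Finset.Icc (-(J : ℤ)) J, ∫⁻ g, ENNReal.ofReal (Real.exp (κ *
          (Real.cos (2 * j * d) * re b g - Real.sin (2 * j * d) * im b g) - sq b / 2))
          ∂gm m := by
        refine lintegral_finsetSum _ fun j _ => ?_
        have := measurable_re b
        have := measurable_im b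
        fun_prop
    _ ≤ ∑ j ∈ Finset.Icc (-(J : ℤ)) J, ENNReal.ofReal (5 / 4) :=
        Finset.sum_le_sum fun j _ => hterm _
    _ = ENNReal.ofReal ((2 * J + 1) * (5 / 4)) := by
        rw [Finset.sum_const, Int.card_Icc, ENNReal.ofReal_mul (by positivity), nsmul_eq_mul]
        congr 1
        have : ((J : ℤ) + 1 - -(J : ℤ)).toNat = 2 * J + 1 := by omega
        rw [this]
        have h2 : (2 * (J : ℝ) + 1) = ((2 * J + 1 : ℕ) : ℝ) := by push_cast; ring
        rw [h2, ENNReal.ofReal_natCast]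
    _ ≤ ENNReal.ofReal (14 * (1 + β)) := by
        refine ENNReal.ofReal_le_ofReal ?_
        nlinarith

/-- **The Gaussian mean round every centre.** -/
theorem smooth {m : ℕ} {N : (Fin m → ℝ × ℝ) → ℝ≥0∞} (hN : Measurable N) {M : ℝ≥0∞}
    (hM : ∀ g, ∫⁻ a in Set.Icc 0 (2 * Real.pi), N (rot a g) ≤ M) (b : Fin m → ℝ × ℝ) :
    ∫⁻ g, N (b + g) ∂gm m ≤ M * ENNReal.ofReal (3 * (1 + Real.sqrt (sq b))) := by
  set W : (Fin m → ℝ × ℝ) → ℝ≥0∞ := fun g =>
    ENNReal.ofReal (Real.exp (Real.sqrt (re b g ^ 2 + im b g ^ 2) - sq b / 2)) with hW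
  have hWm : Measurable W := by
    have := measurable_re b
    have := measurable_im b
    rw [hW]
    fun_prop
  have hWr : ∀ a g, W (rot a g) = W g := by
    intro a g
    simp only [hW]
    rw [re_rot, im_rot]
    congr 4
    have := Real.sin_sq_add_cos_sq a
    have e : (Real.cos a * re b g - Real.sin a * im b g) ^ 2 +
        (Real.sin a * re b g + Real.cos a * im b g) ^ 2 =
        (Real.sin a ^ 2 + Real.cos a ^ 2) * (re b g ^ 2 + im b g ^ 2) := by ring
    rw [e, this, one_mul]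
  have h1 := weight_avg hN hWm hWr hM
  have h2 : ∫⁻ g, N (b + g) ∂gm m ≤ ∫⁻ g, W g * N g ∂gm m := by
    rw [cm b hN]
    refine lintegral_mono fun g => ?_
    simp only [hW]
    gcongr
    refine Real.le_sqrt_of_sq_le ?_
    nlinarith [sq_nonneg (im b g)]
  have h3 := weight_mass b
  have hpi := Real.pi_gt_three
  have h4 : (0 : ℝ) < 2 * Real.pi := by positivity
  have h5 : ENNReal.ofReal (2 * Real.pi) ≠ 0 := (ENNReal.ofReal_pos.2 h4).ne'
  have h6 : ∫⁻ g, N (b + g) ∂gm m ≤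
      (M * ENNReal.ofReal (14 * (1 + Real.sqrt (sq b)))) / ENNReal.ofReal (2 * Real.pi) := by
    rw [ENNReal.le_div_iff_mul_le (Or.inl h5) (Or.inl ENNReal.ofReal_ne_top), mul_comm]
    calc ENNReal.ofReal (2 * Real.pi) * ∫⁻ g, N (b + g) ∂gm m
        ≤ ENNReal.ofReal (2 * Real.pi) * ∫⁻ g, W g * N g ∂gm m := by gcongr
      _ ≤ M * ∫⁻ g, W g ∂gm m := h1
      _ ≤ _ := by gcongr
  refine h6.trans ?_
  rw [mul_div_assoc, ← ENNReal.ofReal_div_of_pos h4]
  gcongr
  rw [div_le_iff₀ h4]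
  have := Real.sqrt_nonneg (sq b)
  nlinarith

end Pool.Agent.Lib.MP_95e7ec_an.Ball
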