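import Mathlib
import Pool.Agent.Lib.MP_95e7ec_an.Rt.Mean2
import Pool.Agent.Lib.MP_95e7ec_an.Ry.RandComb
import Pool.Agent.Lib.MP_95e7ec_an.Ball.Smooth

/-!
# Ball, Main: the expected number of closed orbits round an arbitrary field

For all planar fields `X_1, …, X_m` of degree at most `n`, all `c ∈ ℂ^m` and all `τ > 0` the
expected number of closed orbits of `∑ (c_p + τ g_p) X_p`, `g` a standard Gaussian vector of
`ℂ^m`, is at most `K n^6 (1 + log n) (1 + |c| / τ)`.
-/

set_option autoImplicit false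

open Set Filter Topology MeasureTheory ProbabilityTheory
open scoped ContDiff ENNReal

namespace Pool.Agent.Lib.MP_95e7ec_an

/-- the field `∑ g_p X_p`: the complex number `g_p = (g p).1 + i (g p).2` acts on the values of
`X_p = (F p).1 + i (F p).2` -/
noncomputable def combC {m : ℕ}
    (F : Fin m → MvPolynomial (Fin 2) ℝ × MvPolynomial (Fin 2) ℝ) (g : Fin m → ℝ × ℝ) :
    ℝ × ℝ → ℝ × ℝ :=
  vf (∑ p, (MvPolynomial.C (g p).1 * (F p).1 - MvPolynomial.C (g p).2 * (F p).2))
    (∑ p, (MvPolynomial.C (g p).2 * (F p).1 + MvPolynomial.C (g p).1 * (F p).2))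

namespace Ball

variable {m n : ℕ} {F : Fin m → MvPolynomial (Fin 2) ℝ × MvPolynomial (Fin 2) ℝ}

theorem deg1 (hF : ∀ p, (F p).1.totalDegree ≤ n ∧ (F p).2.totalDegree ≤ n)
    (g : Fin m → ℝ × ℝ) :
    (∑ p, (MvPolynomial.C (g p).1 * (F p).1 - MvPolynomial.C (g p).2 * (F p).2)).totalDegree
      ≤ n := by
  refine MvPolynomial.totalDegree_finsetSum_le fun p _ => ?_
  refine (MvPolynomial.totalDegree_sub _ _).trans (max_le ?_ ?_)
  · refine (MvPolynomial.totalDegree_mul _ _).trans ?_
    rw [MvPolynomial.totalDegree_C, zero_add]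
    exact (hF p).1
  · refine (MvPolynomial.totalDegree_mul _ _).trans ?_
    rw [MvPolynomial.totalDegree_C, zero_add]
    exact (hF p).2

theorem deg2 (hF : ∀ p, (F p).1.totalDegree ≤ n ∧ (F p).2.totalDegree ≤ n)
    (g : Fin m → ℝ × ℝ) :
    (∑ p, (MvPolynomial.C (g p).2 * (F p).1 + MvPolynomial.C (g p).1 * (F p).2)).totalDegree
      ≤ n := by
  refine MvPolynomial.totalDegree_finsetSum_le fun p _ => ?_
  refine (MvPolynomial.totalDegree_add _ _).trans (max_le ?_ ?_)
  · refine (MvPolynomial.totalDegree_mul _ _).trans ?_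
    rw [MvPolynomial.totalDegree_C, zero_add]
    exact (hF p).1
  · refine (MvPolynomial.totalDegree_mul _ _).trans ?_
    rw [MvPolynomial.totalDegree_C, zero_add]
    exact (hF p).2

theorem measurable_combC (hF : ∀ p, (F p).1.totalDegree ≤ n ∧ (F p).2.totalDegree ≤ n) :
    Measurable fun g : Fin m → ℝ × ℝ => allN (combC F g) := by
  set X : (Fin m → ℝ × ℝ) → Pr n := fun g =>
    (fun a b => ∑ p, ((g p).1 * arr n (F p).1 a b - (g p).2 * arr n (F p).2 a b),
     fun a b => ∑ p, ((g p).2 * arr n (F p).1 a b + (g p).1 * arr n (F p).2 a b)) with hX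
  have hXc : Continuous X := by
    rw [hX]
    fun_prop
  have hXv : ∀ g, vfc (X g) = combC F g := by
    intro g
    unfold combC
    rw [vf_eq_vfc (deg1 hF g) (deg2 hF g)]
    congr 1
    refine Prod.ext ?_ ?_
    · funext a b
      simp only [hX, arr, MvPolynomial.coeff_sum, MvPolynomial.coeff_sub,
        MvPolynomial.coeff_C_mul]
    · funext a b
      simp only [hX, arr, MvPolynomial.coeff_sum, MvPolynomial.coeff_add,
        MvPolynomial.coeff_C_mul]
  have : (fun g => allN (combC F g)) = (fun μ => allN (vfc μ)) ∘ X := by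
    funext g
    simp only [Function.comp, hXv]
  rw [this]
  exact (measurable_allN n).comp hXc.measurable

theorem combC_rot (F : Fin m → MvPolynomial (Fin 2) ℝ × MvPolynomial (Fin 2) ℝ)
    (g : Fin m → ℝ × ℝ) (a : ℝ) : combC F (rot a g) = turn a (combC F g) := by
  funext z
  simp only [combC, vf, turn, rot, rp, map_sum, map_sub, map_add, map_mul, MvPolynomial.eval_C,
    Finset.mul_sum]
  refine Prod.ext ?_ ?_
  · dsimp only
    rw [← Finset.sum_sub_distrib]
    exact Finset.sum_congr rfl fun p _ => by ring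
  · dsimp only
    rw [← Finset.sum_add_distrib]
    exact Finset.sum_congr rfl fun p _ => by ring

end Ball

/-- **Closed orbits of Gaussian perturbations of an arbitrary field.** -/
theorem smooth_theorem : ∃ K : ℝ, ∀ (n m : ℕ)
    (F : Fin m → MvPolynomial (Fin 2) ℝ × MvPolynomial (Fin 2) ℝ) (c : Fin m → ℝ × ℝ) (τ : ℝ),
    1 ≤ n → (∀ p, (F p).1.totalDegree ≤ n ∧ (F p).2.totalDegree ≤ n) → 0 < τ →
      (Measurable fun g : Fin m → ℝ × ℝ => allN (combC F g)) ∧
      ∫⁻ g, allN (combC F (fun p => c p + τ • g p))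
        ∂(Measure.pi fun _ : Fin m => (gaussianReal 0 1).prod (gaussianReal 0 1)) ≤
        ENNReal.ofReal (K * (n ^ 6 * (1 + Real.log n)) *
          (1 + Real.sqrt (∑ p, ((c p).1 ^ 2 + (c p).2 ^ 2)) / τ)) := by
  obtain ⟨K, hK⟩ := mean_theorem2
  refine ⟨3 * |K|, fun n m F c τ hn hF hτ => ⟨Ball.measurable_combC hF, ?_⟩⟩
  set N : (Fin m → ℝ × ℝ) → ℝ≥0∞ := fun g => allN (combC F (τ • g)) with hN
  have hNm : Measurable N :=
    (Ball.measurable_combC hF).comp (measurable_const_smul τ)
  have hM : ∀ g, ∫⁻ a in Set.Icc 0 (2 * Real.pi), N (Ball.rot a g) ≤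
      ENNReal.ofReal (|K| * (n ^ 6 * (1 + Real.log n))) := by
    intro g
    have e : ∀ a : ℝ, N (Ball.rot a g) = allN (turn a (combC F (τ • g))) := by
      intro a
      simp only [hN]
      rw [← Ball.combC_rot]
      congr 2
      funext p
      simp only [Ball.rot, Ball.rp, Pi.smul_apply, Prod.smul_fst, Prod.smul_snd, smul_eq_mul]
      refine Prod.ext ?_ ?_
      · simp only [Prod.smul_fst, smul_eq_mul]; ring
      · simp only [Prod.smul_snd, smul_eq_mul]; ring
    simp only [e]
    refine (hK n hn _ _ (Ball.deg1 hF (τ • g)) (Ball.deg2 hF (τ • g))).2.trans ?_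
    refine ENNReal.ofReal_le_ofReal ?_
    have hlog : 0 ≤ Real.log n := Real.log_natCast_nonneg n
    exact mul_le_mul_of_nonneg_right (le_abs_self K) (by positivity)
  have h := Ball.smooth hNm hM (fun p => τ⁻¹ • c p)
  have e1 : ∀ g : Fin m → ℝ × ℝ, N ((fun p => τ⁻¹ • c p) + g) =
      allN (combC F (fun p => c p + τ • g p)) := by
    intro g
    simp only [hN]
    congr 2
    funext p
    simp only [Pi.smul_apply, Pi.add_apply, smul_add, smul_smul, mul_inv_cancel₀ hτ.ne',
      one_smul]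
  have e2 : Ball.sq (fun p => τ⁻¹ • c p) = (∑ p, ((c p).1 ^ 2 + (c p).2 ^ 2)) / τ ^ 2 := by
    unfold Ball.sq
    rw [Finset.sum_div]
    refine Finset.sum_congr rfl fun p _ => ?_
    simp only [Prod.smul_fst, Prod.smul_snd, smul_eq_mul]
    field_simp
  rw [e2, Real.sqrt_div' _ (by positivity), Real.sqrt_sq hτ.le] at h
  simp only [e1] at h
  have hlog : 0 ≤ Real.log n := Real.log_natCast_nonneg n
  refine h.trans (le_of_eq ?_)
  rw [← ENNReal.ofReal_mul (by positivity)]
  congr 1
  ring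

end Pool.Agent.Lib.MP_95e7ec_an
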